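import Mathlib
import Pool.Agent.N900.MF.CritM2
import Pool.Agent.H358R5.Three
import Pool.Agent.Y876.FF.Tr

/-! `m + 1` of any `K` admissible linear forms are simultaneously prime for at least `X / (log X) ^ C` of the
`n ≤ 3 X`, for `log K ≥ 4 m + 29 / 50`, `m ≥ 2`, and for `m = 2`, `K = 3560`. -/

set_option autoImplicit false

open Finset Filter

namespace Pool.Agent.N900.MF

open Pool.Agent.H358R5
open Pool.Agent.H95R2.BG Pool.Agent.H95R2.BG.LF
open Pool.Agent.Y876.FF (LH)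

attribute [local irreducible] CC

/-- from the sets of good integers to `LH` -/
theorem lh_of {m K : ℕ} (h : ∀ (A B : Fin K → ℕ), AdmissibleL A B →
    ∀ᶠ X : ℝ in atTop, X / Real.log X ^ CC K ≤ ((goodM m A B (3 * X)).card : ℝ)) : LH m K (CC K) := by
  classical
  intro a b ha hne hloc
  filter_upwards [h a b ⟨ha, hne, hloc⟩, eventually_ge_atTop (0 : ℝ)] with X hX hX0
  refine hX.trans (Nat.cast_le.2 ?_)
  unfold goodM
  rw [← Set.ncard_coe_finset]
  apply Set.ncard_le_ncard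
  · intro n hn
    obtain ⟨h1, h2⟩ := mem_filter.1 (mem_coe.1 hn)
    rw [mem_Icc] at h1
    refine ⟨h1.1, (Nat.le_floor_iff (by linarith)).1 h1.2, ?_⟩
    refine h2.trans (le_of_eq ?_)
    rw [← Set.ncard_coe_finset]
    congr 1
    ext i
    simp
  · apply (Set.finite_Iic ⌊3 * X⌋₊).subset
    rintro n ⟨_, h3, _⟩
    exact Nat.le_floor h3

theorem gcrit2 (m K0 N : ℕ) (G φ : ℕ → ℕ) (hN : 2 ≤ N)
    (h : 4 * m * (N - 1) * ∑ s ∈ range (N + 1), AG G (K0 + 1) s * φ (N - s) ^ 2 <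
      (K0 + 1) * ∑ s ∈ range (N + 1), AG G K0 s *
        (∑ t ∈ range (N - s), G (t + 1) * φ (N - s - 1 - t)) ^ 2) : LH m (K0 + 1) (CC (K0 + 1)) := by
  apply lh_of
  intro A B hadm
  have hBox : ∀ k M : ℕ, Box k M = Fintype.piFinset (fun _ : Fin k => range M) := fun _ _ => rfl
  refine criterionL_m2 (K0 := K0) (N1 := N - 1) (M := N) (R := N - 1) m (by omega) (by omega) (by omega)
    (FG G φ N) ?_ 0 (fun _ => 0) (fun _ => le_rfl) (fun _ _ => 0) (fun _ _ => 1) ?_ ?_ ?_ A B hadm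
  · intro c hc
    unfold FG at hc
    have h1 : ∑ j, (c j + 1) ≤ N := by
      by_contra hcon
      rw [if_neg hcon] at hc
      exact hc rfl
    unfold rad
    omega
  · intro Y
    simp only [one_mul, Finset.univ_eq_empty, Finset.sum_empty, add_zero]
    rw [pow_two, Finset.sum_mul_sum]
  · intro s s' hs hs' hss
    omega
  · have e1 : ∑ c ∈ Box (K0 + 1) N, FG G φ N c ^ 2 =
        ∑ s ∈ range (N + 1), (AG G (K0 + 1) s : ℝ) * (φ (N - s) : ℝ) ^ 2 := by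
      rw [hBox]; exact FG_sq G φ N (K0 + 1)
    have e2 : ∀ i : Fin (K0 + 1), ∑ c ∈ Box K0 N, (1 - 4 * ∑ l : Fin 0, (0 : ℝ) * ((0 : ℝ) ^ 2 /
        (2 - (rad c : ℝ) / ((N - 1 : ℕ) : ℝ)))) * UU N (FG G φ N) i c ^ 2 =
        ∑ s ∈ range (N + 1), (AG G K0 s : ℝ) *
          ((∑ t ∈ range (N - s), G (t + 1) * φ (N - s - 1 - t) : ℕ) : ℝ) ^ 2 := by
      intro i
      rw [← FG_marg G φ N K0 i, hBox]
      refine Finset.sum_congr rfl fun c _ => ?_
      simp [UU]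
    have e3 := Finset.sum_congr (rfl : (univ : Finset (Fin (K0 + 1))) = univ) fun i _ => e2 i
    rw [e1, e3, Finset.sum_const, Finset.card_univ, Fintype.card_fin, nsmul_eq_mul]
    have h4 : (((4 * m * (N - 1) * ∑ s ∈ range (N + 1), AG G (K0 + 1) s * φ (N - s) ^ 2 : ℕ)) : ℝ) <
        (((K0 + 1) * ∑ s ∈ range (N + 1), AG G K0 s *
          (∑ t ∈ range (N - s), G (t + 1) * φ (N - s - 1 - t)) ^ 2 : ℕ) : ℝ) := by
      exact_mod_cast h
    push_cast at h4 ⊢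
    exact h4

theorem lh_of_chkP (w : ℕ) (t : BT) (P M : List (ℕ × ℕ)) (st : ST) (L : List (Bool × ℕ))
    (tK m K0 K : ℕ) (hK : K0 + 1 = K) (hw : 0 < w) (ht : 2 ≤ t.len)
    (h : chkP w t P M st L tK m K = true) : LH m K (CC K) := by
  subst hK
  have h1 := SOUNDP_proof (INVMUL_proof (MULS_proof REP_proof) CONVA_proof) (INIT_proof REP_proof SMV_proof)
    (SEGP_proof HPL_proof) w t P M st L tK m K0 hw h
  exact gcrit2 m K0 t.len t.G (phi P M) ht h1

/-- three of any `3560` -/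
theorem lh3 : LH 2 3560 (CC 3560) :=
  lh_of_chkP 112 DatP.bt DatP.up DatP.dn DatP.st DatP.ops 56 2 3559 3560 (by norm_num) (by norm_num)
    (Nat.le_of_ble_eq_true len_ok) cert_check

/-- `m + 1` of any `K`, `log K ≥ 4 m + 0.58` -/
theorem lh_many (m K : ℕ) (hm : 2 ≤ m) (hK : 4 * (m : ℝ) + 29 / 50 ≤ Real.log K) : LH m K (CC K) := by
  apply lh_of
  intro A B hadm
  obtain _ | K0 := K
  · exfalso
    have hm' : (2 : ℝ) ≤ m := by exact_mod_cast hm
    simp at hK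
    linarith
  have hm' : (2 : ℝ) ≤ m := by exact_mod_cast hm
  have hK' : 4 * (m : ℝ) + 29 / 50 ≤ Real.log ((K0 : ℝ) + 1) := by
    push_cast at hK
    exact hK
  obtain ⟨L, hL⟩ : ∃ L : ℕ, L = 100 * (K0 + 1) := ⟨_, rfl⟩
  have hL1 : 1 ≤ L := by omega
  have hbm : 8 ≤ bm m := by
    unfold bm
    have : 0 ≤ 32 * (m : ℝ) ^ 2 * Real.exp (-(4 * m)) := by positivity
    linarith
  have hLK : (1 : ℝ) ≤ (L : ℝ) * ((K0 : ℝ) + 1) := by
    have h1 : (1 : ℝ) ≤ L := by exact_mod_cast hL1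
    have h2 : (1 : ℝ) ≤ (K0 : ℝ) + 1 := by
      have : (0 : ℝ) ≤ K0 := Nat.cast_nonneg _
      linarith
    nlinarith
  obtain ⟨N, hN⟩ : ∃ N : ℕ, N = ⌈bm m * ((L : ℝ) * ((K0 : ℝ) + 1))⌉₊ := ⟨_, rfl⟩
  have hpos : 0 ≤ bm m * ((L : ℝ) * ((K0 : ℝ) + 1)) := by nlinarith
  have hN1 : bm m * ((L : ℝ) * ((K0 : ℝ) + 1)) ≤ N := by rw [hN]; exact Nat.le_ceil _
  have hN2 : (N : ℝ) ≤ bm m * ((L : ℝ) * ((K0 : ℝ) + 1)) + 1 := by
    rw [hN]; exact (Nat.ceil_lt_add_one hpos).le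
  have key := ASM_full m L K0 N hm hK' (by rw [hL]) hN1 hN2
  have hN8 : (8 : ℝ) ≤ N := by nlinarith
  have hN8' : 8 ≤ N := by exact_mod_cast hN8
  have hKN : K0 + 1 ≤ N := by
    have h1 : ((K0 : ℝ) + 1) ≤ N := by
      have h2 : (1 : ℝ) ≤ L := by exact_mod_cast hL1
      have h3 : (0 : ℝ) ≤ K0 := Nat.cast_nonneg _
      have h4 : ((K0 : ℝ) + 1) ≤ (L : ℝ) * ((K0 : ℝ) + 1) := by nlinarith
      nlinarith
    exact_mod_cast h1
  have hDpos : 0 < D L (K0 + 1) N := (LCD_full L (K0 + 1) hL1).2.2.2.1 N hKN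
  have hBox : ∀ k M : ℕ, Box k M = Fintype.piFinset (fun _ : Fin k => range M) := fun _ _ => rfl
  refine criterionL_m2 (K0 := K0) (N1 := N - 1) (M := N) (R := N - 1) m (by omega) (by omega) (by omega)
    (Fw L N) ?_ 0 (fun _ => 0) (fun _ => le_rfl) (fun _ _ => 0) (fun _ _ => 1) ?_ ?_ ?_ A B hadm
  · intro c hc
    unfold Fw at hc
    have h1 : ∑ j, (c j + 1) ≤ N := by
      by_contra hcon
      rw [if_neg hcon] at hc
      exact hc rfl
    unfold rad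
    omega
  · intro Y
    simp only [one_mul, Finset.univ_eq_empty, Finset.sum_empty, add_zero]
    rw [pow_two, Finset.sum_mul_sum]
  · intro s s' hs hs' hss
    omega
  · have e1 : ∑ c ∈ Box (K0 + 1) N, Fw L N c ^ 2 = D L (K0 + 1) N := by
      rw [hBox]; exact FSQ_proof BOX_proof L N (K0 + 1)
    have e2 : ∀ i : Fin (K0 + 1), ∑ c ∈ Box K0 N, (1 - 4 * ∑ l : Fin 0, (0 : ℝ) * ((0 : ℝ) ^ 2 /
        (2 - (rad c : ℝ) / ((N - 1 : ℕ) : ℝ)))) * UU N (Fw L N) i c ^ 2 =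
        ∑ s ∈ range (N + 1), Pool.Agent.H358R5.A L K0 s * Pool.Agent.H358R5.B L (N - s) ^ 2 := by
      intro i
      rw [← FUU_proof BOX_proof L N K0 i, hBox]
      refine Finset.sum_congr rfl fun c _ => ?_
      simp [UU]
    have e3 := Finset.sum_congr (rfl : (univ : Finset (Fin (K0 + 1))) = univ) fun i _ => e2 i
    rw [e1, e3, Finset.sum_const, Finset.card_univ, Fintype.card_fin, nsmul_eq_mul]
    have h1 : ((N - 1 : ℕ) : ℝ) = (N : ℝ) - 1 := by
      rw [Nat.cast_sub (by omega)]; simp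
    rw [h1]
    push_cast
    have h2 : 0 < 4 * (m : ℝ) * D L (K0 + 1) N := by positivity
    nlinarith [key]

end Pool.Agent.N900.MF
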